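import Pool.Agent.D0H44.DM.Stm

set_option autoImplicit false

/-! Project DM (helper44), module LOGP: polynomials in a logarithm. -/

namespace Pool.Agent.D0H52.DM

open MeasureTheory Set Filter Pool.Agent.D0H44.DM

theorem one_le_mx (u : ℝ) (hu : 0 < u) : 1 ≤ max u u⁻¹ := by
  rcases le_total 1 u with h | h
  · exact h.trans (le_max_left _ _)
  · exact ((one_le_inv₀ hu).mpr h).trans (le_max_right _ _)

theorem abs_log_le (u : ℝ) (hu : 0 < u) (δ : ℝ) (hδ : 0 < δ) :
    |Real.log u| ≤ (max u u⁻¹) ^ δ / δ := by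
  have h1 : Real.log u ≤ Real.log (max u u⁻¹) := Real.log_le_log hu (le_max_left _ _)
  have h2 : Real.log u⁻¹ ≤ Real.log (max u u⁻¹) :=
    Real.log_le_log (inv_pos.mpr hu) (le_max_right _ _)
  rw [Real.log_inv] at h2
  have h3 : |Real.log u| ≤ Real.log (max u u⁻¹) := abs_le.mpr ⟨by linarith, h1⟩
  refine h3.trans (Real.log_le_rpow_div ?_ hδ)
  exact le_trans zero_le_one (one_le_mx u hu)

theorem bound (P : Polynomial ℝ) (ε : ℝ) (hε : 0 < ε) : ∃ C : ℝ, 0 ≤ C ∧ ∀ u : ℝ, 0 < u →
    |P.eval (Real.log u)| ≤ C * (max u u⁻¹) ^ ε := by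
  set N := P.natDegree with hN
  set δ : ℝ := ε / (N + 1) with hδd
  have hδ : 0 < δ := by positivity
  refine ⟨∑ i ∈ Finset.range (N + 1), |P.coeff i| / δ ^ i, by positivity, fun u hu => ?_⟩
  have hm1 := one_le_mx u hu
  have hm0 : 0 < max u u⁻¹ := lt_of_lt_of_le one_pos hm1
  rw [Polynomial.eval_eq_sum_range, Finset.sum_mul]
  refine (Finset.abs_sum_le_sum_abs _ _).trans (Finset.sum_le_sum fun i hi => ?_)
  rw [abs_mul, abs_pow]
  have h1 : |Real.log u| ^ i ≤ ((max u u⁻¹) ^ δ / δ) ^ i :=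
    pow_le_pow_left₀ (abs_nonneg _) (abs_log_le u hu δ hδ) i
  have h2 : ((max u u⁻¹) ^ δ / δ) ^ i ≤ (max u u⁻¹) ^ ε / δ ^ i := by
    rw [div_pow]
    refine div_le_div_of_nonneg_right ?_ (by positivity)
    rw [← Real.rpow_natCast, ← Real.rpow_mul hm0.le]
    refine Real.rpow_le_rpow_of_exponent_le hm1 ?_
    have h3 : (i : ℝ) ≤ N + 1 := by
      have := Finset.mem_range.mp hi
      exact_mod_cast this.le
    rw [hδd, div_mul_eq_mul_div, div_le_iff₀ (by positivity)]
    exact mul_le_mul_of_nonneg_left h3 hε.le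
  calc |P.coeff i| * |Real.log u| ^ i ≤ |P.coeff i| * ((max u u⁻¹) ^ ε / δ ^ i) :=
        mul_le_mul_of_nonneg_left (h1.trans h2) (abs_nonneg _)
    _ = |P.coeff i| / δ ^ i * (max u u⁻¹) ^ ε := by ring

theorem t_LOGP : S_LOGP := by
  intro P
  constructor
  · intro T hT
    obtain ⟨C, hC, hb⟩ := bound P (1 / 2) (by norm_num)
    have hK : (0 : ℝ) < T ^ 2 + 2 * Real.pi := by positivity
    have hg : IntervalIntegrable
        (fun t : ℝ => C * (T ^ 2 + 2 * Real.pi) ^ (1 / 2 : ℝ) * t ^ (-(1 / 2) : ℝ)) volume 0 T :=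
      (intervalIntegral.intervalIntegrable_rpow' (by norm_num)).const_mul _
    refine hg.mono_fun' ?_ ?_
    · have h1 : Measurable (fun t : ℝ => P.eval (Real.log (t / (2 * Real.pi)))) :=
        P.continuous.measurable.comp (Real.measurable_log.comp (measurable_id.div_const _))
      exact h1.aestronglyMeasurable
    · rw [Filter.EventuallyLE, ae_restrict_iff' measurableSet_uIoc]
      filter_upwards with t ht
      rw [uIoc_of_le hT] at ht
      have ht0 : 0 < t := ht.1
      have hu : 0 < t / (2 * Real.pi) := by positivity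
      rw [Real.norm_eq_abs]
      refine (hb _ hu).trans ?_
      rw [mul_assoc]
      refine mul_le_mul_of_nonneg_left ?_ hC
      have h2 : max (t / (2 * Real.pi)) (t / (2 * Real.pi))⁻¹ ≤ (T ^ 2 + 2 * Real.pi) / t := by
        have hpi : 1 ≤ 2 * Real.pi := by linarith [Real.pi_gt_three]
        apply max_le
        · rw [le_div_iff₀ ht0]
          have h3 : t / (2 * Real.pi) ≤ t := div_le_self ht0.le hpi
          have h4 : t * t ≤ T ^ 2 := by
            rw [sq]
            exact mul_self_le_mul_self ht0.le ht.2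
          have h5 := mul_le_mul_of_nonneg_right h3 ht0.le
          have h6 := Real.pi_pos
          linarith
        · rw [inv_div]
          refine div_le_div_of_nonneg_right ?_ ht0.le
          have := sq_nonneg T
          linarith
      have h3 : 0 ≤ max (t / (2 * Real.pi)) (t / (2 * Real.pi))⁻¹ :=
        hu.le.trans (le_max_left _ _)
      refine (Real.rpow_le_rpow h3 h2 (by norm_num)).trans (le_of_eq ?_)
      rw [Real.div_rpow hK.le ht0.le, Real.rpow_neg ht0.le]
      rfl
  · intro ε hε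
    obtain ⟨C, hC, hb⟩ := bound P ε hε
    refine ⟨C * (2 * Real.pi) ^ ε, fun t ht => ?_⟩
    have ht0 : 0 < t := by linarith
    have hpi : 1 ≤ 2 * Real.pi := by linarith [Real.pi_gt_three]
    have hu : 0 < t / (2 * Real.pi) := by positivity
    refine (hb _ hu).trans ?_
    rw [mul_assoc, ← Real.mul_rpow (by positivity) ht0.le]
    refine mul_le_mul_of_nonneg_left ?_ hC
    refine Real.rpow_le_rpow (hu.le.trans (le_max_left _ _)) ?_ hε.le
    apply max_le
    · have h3 : t / (2 * Real.pi) ≤ t := div_le_self ht0.le hpi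
      nlinarith
    · rw [inv_div, div_le_iff₀ ht0, mul_assoc]
      have h4 : 1 ≤ t * t := by nlinarith
      have h5 := mul_le_mul_of_nonneg_left h4 (by positivity : (0 : ℝ) ≤ 2 * Real.pi)
      linarith

end Pool.Agent.D0H52.DM
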